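import Pool.Agent.U918.LP.Gold

/-!
# Goldbach representations with a prime-indexed prime summand, for almost all `n`

For almost all `n` we count the primes `p` of the question: `2 n - p` is prime and the index `π(p)` is prime. Let `w`
be ANY bounded real weight. For all but a share `log ^ (-U) X` of the `n ≤ X / 2` the sum of `w p` over the primes `p`
with `π(p)` and `2 n - p` prime is the sum of `w p / (V z log (2 n - p))` over the primes `p` with `π(p)` prime and
`2 n - p` free of primes `≤ z`, up to an error `X / log ^ D X`; here `z` is a power of `log X` and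
`V z = ∏_{l ≤ z} (1 - 1/l)`. This holds simultaneously for all initial intervals `p ≤ y`, `y ≤ X`, and all residue
classes of `p` to all moduli up to `log ^ K X`, and also for several `n_i` at once: the primes `p` for which all the
numbers `2 n_i - p` are prime. There is no modulus and no residue class of `n` in the statement.
-/

set_option autoImplicit false

open Finset

namespace Pool.Agent.Results.MP_5d7b92_nt.AlmostAllEvenNumbers

/-- the product of `1 - 1/l` over the primes `l ≤ z` -/
noncomputable def V (z : ℕ) : ℝ := ∏ l ∈ (Icc 1 z).filter Nat.Prime, (1 - 1 / (l : ℝ))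

/-- `p` is a prime whose index `π(p)` is prime -/
def PrimeIndexed (p : ℕ) : Prop := p.Prime ∧ (Nat.primeCounting p).Prime

open Classical in
/-- the sum of `w p` over the `p ≤ y` with `PrimeIndexed p`, `p ≡ a mod q`, for which all the numbers `2 n i - p` are
prime -/
noncomputable def primeSum {r : ℕ} (w : ℕ → ℝ) (n : Fin r → ℕ) (q a y : ℕ) : ℝ :=
  ∑ p ∈ (Icc 1 y).filter (fun p => PrimeIndexed p ∧ p ≡ a [MOD q] ∧ ∀ i, (2 * n i - p).Prime), w p

open Classical in
/-- the sum of `w p / ∏ (V z · log (2 n i - p))` over the `p ≤ y` with `PrimeIndexed p`, `p ≡ a mod q`, for which no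
prime `l ≤ z` divides any of the numbers `2 n i - p` -/
noncomputable def modelSum {r : ℕ} (z : ℕ) (w : ℕ → ℝ) (n : Fin r → ℕ) (q a y : ℕ) : ℝ :=
  ∑ p ∈ (Icc 1 y).filter (fun p => PrimeIndexed p ∧ p ≡ a [MOD q] ∧
    ∀ i, ∀ l : ℕ, l.Prime → l ≤ z → ¬ l ∣ 2 * n i - p),
    w p * ∏ i, (V z * Real.log ((2 * n i - p : ℕ) : ℝ))⁻¹

open Classical in
/-- **The theorem.** For all `r`, `U`, `D`, `K` there is `B₀` such that for every `E`, every large `X`, every integer
`z` with `log ^ B₀ X ≤ z ≤ log ^ E X` and EVERY weight `w` with `|w p| ≤ 1`: for all but at most `X ^ r / log ^ U X` of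
the vectors `n` of integers `1 ≤ n i ≤ X / 2`, one has for all `y ≤ X`, all moduli `1 ≤ q ≤ log ^ K X` and all classes
`a` that `primeSum w n q a y` and `modelSum z w n q a y` differ by at most `X / log ^ D X`. -/
theorem result (r U D K : ℕ) :
    ∃ B₀ : ℕ, ∀ E : ℕ, ∃ X₀ : ℕ, ∀ X : ℕ, X₀ ≤ X → ∀ z : ℕ, Real.log X ^ B₀ ≤ z → (z : ℝ) ≤ Real.log X ^ E →
    ∀ w : ℕ → ℝ, (∀ p, |w p| ≤ 1) →
    (((Fintype.piFinset (fun _ : Fin r => Icc 1 (X / 2))).filter (fun n =>
      ∃ y ≤ X, ∃ q a : ℕ, 1 ≤ q ∧ (q : ℝ) ≤ Real.log X ^ K ∧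
        (X : ℝ) / Real.log X ^ D < |primeSum w n q a y - modelSum z w n q a y|)).card : ℝ) ≤
      (X : ℝ) ^ r / Real.log X ^ U :=
  Pool.Agent.U918.LP.gold r PrimeIndexed U D K

end Pool.Agent.Results.MP_5d7b92_nt.AlmostAllEvenNumbers
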