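import Pool.Agent.U331.SU.Sum
import Pool.Agent.U847.XF
import Pool.Agent.N625.PT.X8

/-!
# Goldbach representations, one prime in an arbitrary dense set of primes (for example in the set of the primes `p` for which
`π(p)` is prime), of multiples of sums of independent random integers (words of codes at arbitrary positions, for example)

The even numbers are `N = h M (c + κ v)`, where `M` is the product of the primes `≤ y` and the `v` are sums of
independent random integers with a joint lattice condition (`Sums`); no single digit of them needs to be variable. The sum over `v` in the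
theorem is the probability that `v` is an exception.

From Mathlib: `Nat.primeCounting`: the function `π`; `primorial y`: the product of the primes `≤ y`; `Finset.Icc 1 x`: the
integers from `1` to `x`.

Method. New here: the exponential sums over such random integers. If the product of a frequency with `R b ^ j` is far from
the integers, then so is its product with one of the differences `x_t - y_t`, and the characteristic function of the
summand number `n_t` loses a constant factor at this frequency. So the exponential sum decays exponentially in the number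
of the positions at which the frequency, multiplied with `R`, is far from the integers (`Pool.Agent.U331.SU`). The passage
from such a decay to the sieve, to the second moment and to the number of the primes in random translates is helper847's
(`Pool.Agent.U847.XP.SCls`, generic in the class of distributions, after the starting files `Pool.Agent.N625.PT.X2` - `X12`),
and the representations are treated in `Pool.Agent.U847.XP.dense_sum`.
-/

set_option autoImplicit false

namespace Pool.Agent.Results.MP_5d7b92_nt.IndependentSumMultiples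

open Finset

/-- `p` is the distribution of a sum of `N` independent random integers: the summand number `n` takes the values `x ∈ S n` with
the probabilities `π n x`, and the values of the sum are `< b ^ k`. For all but at most `s` of the positions `j < k` the number
`R b ^ j` is a combination `∑ t, c_t (x_t - y_t)`, `t < s`, with integers `|c_t| ≤ s`, where `x_t` and `y_t` are values which one
of the summands, the one with the number `n_t`, takes with a probability of at least `η`; and every summand is used in this
way for at most `s` positions. (Examples: independent random digits, each from an arbitrary set with at least two elements;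
palindromes with independent pairs of opposite digits, `R = b ^ 2 - 1`; the integers whose digits in arbitrary blocks of
boundedly many positions are independent random words of arbitrary codes which are not contained in a hyperplane, no single
digit of which needs to be variable; sums of several integers of this kind.) -/
structure Sums (b s R : ℕ) (η : ℝ) (k : ℕ) (p : ℕ → ℝ) : Prop where
  ex : ∃ (N : ℕ) (S : Fin N → Finset ℕ) (π : Fin N → ℕ → ℝ),
    (∀ n, (∀ x, 0 ≤ π n x) ∧ ∑ x ∈ S n, π n x = 1) ∧
    (∀ x ∈ Fintype.piFinset S, ∑ n, x n < b ^ k) ∧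
    (∀ v, p v = ∑ x ∈ (Fintype.piFinset S).filter (fun x => ∑ n, x n = v), ∏ n, π n (x n)) ∧
    ∃ (J : Finset ℕ) (n : ℕ → Fin s → Fin N) (c : ℕ → Fin s → ℤ) (x y : ℕ → Fin s → ℕ),
      (J ⊆ range k ∧ k ≤ J.card + s) ∧
      (∀ j ∈ J, ((R * b ^ j : ℕ) : ℤ) = ∑ t, c j t * ((x j t : ℤ) - y j t)) ∧
      (∀ j ∈ J, ∀ t, |c j t| ≤ s ∧ (x j t ∈ S (n j t) ∧ y j t ∈ S (n j t)) ∧
        η ≤ π (n j t) (x j t) ∧ η ≤ π (n j t) (y j t)) ∧
      ∀ m : Fin N, (J.filter fun j => ∃ t, n j t = m).card ≤ s

lemma conv {b s R : ℕ} {η : ℝ} {k : ℕ} {p : ℕ → ℝ} (h : Sums b s R η k p) : Pool.Agent.U331.SU.Sums b s R η k p := ⟨h.ex⟩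

/-- the product of `1 - 1/q` over the primes `q ≤ y` -/
noncomputable def V (y : ℕ) : ℝ := ∏ q ∈ (Icc 1 y).filter Nat.Prime, (1 - 1 / (q : ℝ))

/-- the multiple of the product of the primes `≤ y` given by the integers `h` and `c + κ v` -/
def Nv (y h : ℕ) (c κ : ℤ) (v : ℕ) : ℤ := ((primorial y * h : ℕ) : ℤ) * (c + κ * v)

/-- the primes `p ≤ x` such that `π(p)` is prime -/
noncomputable def PP (x : ℕ) : Finset ℕ := (Icc 1 x).filter (fun p => p.Prime ∧ (Nat.primeCounting p).Prime)

/-- the `u ∈ S` such that `n - u` is prime -/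
def Rep (S : Finset ℕ) (n : ℤ) : Finset ℕ := S.filter (fun u : ℕ => (n - u).toNat.Prime)

open Classical in
/-- Let `b ≥ 2`, `s`, `R ≥ 1`, `η > 0`, `κ ≠ 0`, `B`, `J`, `A`, `C` and `0 < ε ≤ 1` be fixed. Then there is a `K₀` such that for all `K₁` and
all large `k`: let `μ` be a distribution on the words of `k` digits in base `b` with `Sums b s R η k μ`, let `y` be between
`K₀ log k` and `K₁ log k`, let `M` be the product of the primes `≤ y`, let `c` be an integer with `|c| ≤ B b ^ k`, let
`1 ≤ h ≤ k ^ J`, and let `N` be an integer with `b ^ k ≤ N k ^ C` and `N ≤ b ^ k k ^ C`. (1) For every set `S` of at least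
`N / k ^ A` primes `≤ N`, the random integer `v` with the distribution `μ` has with a probability of at least `1 - ε` the
following property: if `n = h M (c + κ v) > N`, then `n - q` is prime for at least `(1 - ε) #S / (V y log b ^ k)` elements `q`
of `S`. (2) There are at least `N / (8 log ^ 2 N)` primes `q ≤ N` with `π(q)` prime, and (1) applies to the set of all of
them: if `n > N`, then `n = q + q'` with `q`, `q'` and `π(q)` prime and `q ≤ N` has at least
`(1 - ε) #(PP N) / (V y log b ^ k)` solutions, with a probability of at most `ε` of the exceptions `v`. -/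
theorem result (b : ℕ) (hb : 2 ≤ b) (s R : ℕ) (hR : 1 ≤ R) (η : ℝ) (hη0 : 0 < η) (κ : ℤ) (hκ : κ ≠ 0)
    (B J A C : ℕ) (ε : ℝ) (hε : 0 < ε) (hε1 : ε ≤ 1) :
    ∃ K₀ : ℕ, ∀ K₁ : ℕ, ∃ k₀ : ℕ, ∀ k : ℕ, k₀ ≤ k → ∀ μ : ℕ → ℝ, Sums b s R η k μ →
      ∀ y : ℕ, K₀ * Real.log k ≤ y → y ≤ K₁ * Real.log k →
      ∀ c : ℤ, |c| ≤ B * (b : ℤ) ^ k → ∀ h : ℕ, 1 ≤ h → h ≤ k ^ J → ∀ N : ℕ, b ^ k ≤ N * k ^ C → N ≤ b ^ k * k ^ C →
        (∀ S : Finset ℕ, S ⊆ Icc 1 N → (∀ q ∈ S, q.Prime) → (N : ℝ) ≤ S.card * (k : ℝ) ^ A →
          ∑ v ∈ range (b ^ k), (if (N : ℤ) < Nv y h c κ v ∧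
            ((Rep S (Nv y h c κ v)).card : ℝ) < (1 - ε) * (S.card / (V y * (k * Real.log b))) then μ v else 0) ≤ ε) ∧
        (N : ℝ) / (8 * Real.log N ^ 2) ≤ ((PP N).card : ℝ) ∧
        ∑ v ∈ range (b ^ k), (if (N : ℤ) < Nv y h c κ v ∧
            ((Rep (PP N) (Nv y h c κ v)).card : ℝ) < (1 - ε) * ((PP N).card / (V y * (k * Real.log b))) then μ v else 0) ≤ ε := by
  obtain ⟨K₀, h0⟩ := Pool.Agent.U847.XP.dense_sum b _ hb (Pool.Agent.U331.SU.Sums b s R η)
    (Pool.Agent.U331.SU.sums_scls b s R hb hR η hη0) κ hκ B J (max A 5) C ε hε hε1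
  refine ⟨K₀, fun K₁ => ?_⟩
  obtain ⟨k₀, h0⟩ := h0 K₁
  obtain ⟨k₁, h1⟩ := Pool.Agent.N625.PT.PP_dense b C hb
  refine ⟨max (max k₀ k₁) 1, fun k hk μ hμ y hy1 hy2 c hc h hh1 hhJ N hN1 hN2 => ?_⟩
  have b0 : 1 ≤ k := by omega
  have hkr : (1 : ℝ) ≤ k := by exact_mod_cast b0
  have main : ∀ S : Finset ℕ, S ⊆ Icc 1 N → (∀ q ∈ S, q.Prime) → (N : ℝ) ≤ S.card * (k : ℝ) ^ (max A 5) →
          ∑ v ∈ range (b ^ k), (if (N : ℤ) < Nv y h c κ v ∧
            ((Rep S (Nv y h c κ v)).card : ℝ) < (1 - ε) * (S.card / (V y * (k * Real.log b))) then μ v else 0) ≤ ε := by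
    intro S hS hSp hSA
    refine le_trans (le_of_eq ?_) (h0 k (by omega) μ (conv hμ) y hy1 hy2 c hc h hh1 hhJ N hN1 hN2 S hS hSp hSA)
    apply sum_congr rfl
    intro v _
    congr!
  obtain ⟨h2, h3⟩ := h1 k (by omega) N hN1 hN2
  refine ⟨fun S hS hSp hSA => main S hS hSp (hSA.trans ?_), h2, main (PP N) (filter_subset _ _)
    (fun q hq => (mem_filter.1 hq).2.1) ?_⟩
  · apply mul_le_mul_of_nonneg_left _ (Nat.cast_nonneg _)
    exact pow_le_pow_right₀ hkr (le_max_left _ _)
  · refine h3.trans ?_
    apply mul_le_mul_of_nonneg_left _ (Nat.cast_nonneg _)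
    exact pow_le_pow_right₀ hkr (le_max_right _ _)

end Pool.Agent.Results.MP_5d7b92_nt.IndependentSumMultiples
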