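import Pool.Agent.U847.XF
import Pool.Agent.U847.XW
import Pool.Agent.N625.PT.X8

/-!
# Goldbach representations, one prime in an arbitrary dense set of primes (for example in the set of the primes `p` for which
`π(p)` is prime), of multiples of the integers whose digits label walks in infinite graphs

The even numbers `N = h M (c + κ v)`, where `M` is the product of the primes `≤ y` and `v` runs over the integers whose `k`
digits are the labels of the walks between two vertices of a graph, for example of the Cayley graph of a group: then these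
are the integers whose digits spell a given element of the group. Such a set can contain as few as `N ^ ε` integers below
`N`, and in general it is not automatic.

From Mathlib: `Nat.primeCounting`: the function `π`; `primorial y`: the product of the primes `≤ y`; `Finset.Icc 1 x`: the
integers from `1` to `x`.

Method: the exponential sum over the walks is dominated by the iterates of the adjacency operator of the graph, which
loses a constant factor at every digit where the frequency is not extremal (starting files, `Pool.Agent.N625.GW`). New here: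
this decay is exponential in the number of these digits for all the fractions with a denominator free of small primes
(`Pool.Agent.U847.XC`), it gives the sieve with error terms smaller than all powers of `k` (`Pool.Agent.U847.XD`), the second
moment of the number of the elements of the set of primes which survive the sieve (`Pool.Agent.U847.XE`) and the number of
the representations (`Pool.Agent.U847.XF`). The proofs of these three steps are those of the starting files
`Pool.Agent.N625.PT.X2` - `X7` (integers with exchangeable blocks of digits), with the class of distributions replaced.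
-/

set_option autoImplicit false

namespace Pool.Agent.Results.MP_5d7b92_nt.WalkMultiples

open Finset

/-- The digits `a < b` act on the set `X` of the vertices: an edge with the label `a` leads from `x` to `y` if
`δ x a = some y` (at most one edge with the label `a` starts at `x`). The number of the edges from `x` to `y` equals the
number of the edges from `y` to `x`, and at least two edges start at every vertex. The graph may be infinite. -/
structure Graph {X : Type} (b : ℕ) (δ : X → ℕ → Option X) : Prop where
  symm : ∀ x y : X, {a : ℕ | a < b ∧ δ x a = some y}.ncard = {a : ℕ | a < b ∧ δ y a = some x}.ncard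
  two : ∀ x : X, ∃ a a' : ℕ, a < a' ∧ a' < b ∧ (δ x a).isSome ∧ (δ x a').isSome

open Classical in
/-- The integers `v < b ^ k` whose `k` digits in base `b`, from the most significant to the least significant one (the
digit number `i`, `0 ≤ i < k`, from the left is `v / b ^ (k - 1 - i) % b`), are the labels of a walk from `x` to `y`. -/
noncomputable def walks {X : Type} (b : ℕ) (δ : X → ℕ → Option X) (k : ℕ) (x y : X) : Finset ℕ :=
  (range (b ^ k)).filter fun v =>
    ((List.range k).map fun i => v / b ^ (k - 1 - i) % b).foldl (fun s a => s.bind fun z => δ z a) (some x) = some y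

/-- the product of `1 - 1/q` over the primes `q ≤ y` -/
noncomputable def V (y : ℕ) : ℝ := ∏ q ∈ (Icc 1 y).filter Nat.Prime, (1 - 1 / (q : ℝ))

/-- the primes `p ≤ x` such that `π(p)` is prime -/
noncomputable def PP (x : ℕ) : Finset ℕ := (Icc 1 x).filter (fun p => p.Prime ∧ (Nat.primeCounting p).Prime)

/-- the multiple of the product of the primes `≤ y` given by the integers `h` and `c + κ v` -/
def Nv (y h : ℕ) (c κ : ℤ) (v : ℕ) : ℤ := ((primorial y * h : ℕ) : ℤ) * (c + κ * v)

/-- the `u ∈ S` such that `n - u` is prime -/
def Rep (S : Finset ℕ) (n : ℤ) : Finset ℕ := S.filter (fun u : ℕ => (n - u).toNat.Prime)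

open Classical in
/-- Let `δ` be a graph (infinite or not) whose edges are labelled with the digits in base `b`, let `x` be a vertex, and let
`ρ > 0` be such that there are at most `ρ ^ (2 n)` closed walks of the length `2 n` at `x`, for all `n`. Let `κ ≠ 0`, `D`, `B`,
`J`, `A`, `C` and `0 < ε ≤ 1` be fixed. Then there is a `K₀` such that for all `K₁` and all large `k`: let `z` be a vertex
such that the number of the walks of the length `k` from `x` to `z` is at least `ρ ^ k / k ^ D`, let `y` be between
`K₀ log k` and `K₁ log k`, let `M` be the product of the primes `≤ y`, let `c` be an integer with `|c| ≤ B b ^ k`, let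
`1 ≤ h ≤ k ^ J`, and let `N` be an integer with `b ^ k ≤ N k ^ C` and `N ≤ b ^ k k ^ C`. (1) For every set `S` of at least
`N / k ^ A` primes `≤ N`, all but a proportion of at most `ε` of the integers `v` such that the `k` digits of `v` in base `b`
are the labels of a walk from `x` to `z` have the following property: if `n = h M (c + κ v) > N`, then `n - q` is prime for
at least `(1 - ε) #S / (V y log b ^ k)` elements `q` of `S`. (2) There are at least `N / (8 log ^ 2 N)` primes `q ≤ N` with
`π(q)` prime, and (1) applies to the set of all of them: if `n > N`, then `n = q + q'` with `q`, `q'` and `π(q)` prime and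
`q ≤ N` has at least `(1 - ε) #(PP N) / (V y log b ^ k)` solutions, with a proportion of at most `ε` of exceptions `v`.

(For a group of polynomial growth, a free group, or any group with the property of rapid decay, there are at least
`ρ ^ k / k ^ D` closed walks of every even length `k` in the Cayley graph, where `ρ` is its spectral radius.) -/
theorem result {X : Type} (b : ℕ) (δ : X → ℕ → Option X) (hG : Graph b δ) (x : X) (ρ : ℝ) (hρ : 0 < ρ)
    (hR : ∀ n : ℕ, ((walks b δ (2 * n) x x).card : ℝ) ≤ ρ ^ (2 * n)) (κ : ℤ) (hκ : κ ≠ 0) (D B J A C : ℕ) (ε : ℝ)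
    (hε : 0 < ε) (hε1 : ε ≤ 1) :
    ∃ K₀ : ℕ, ∀ K₁ : ℕ, ∃ k₀ : ℕ, ∀ k : ℕ, k₀ ≤ k → ∀ z : X,
      ρ ^ k / (k : ℝ) ^ D ≤ (walks b δ k x z).card → ∀ y : ℕ, K₀ * Real.log k ≤ y → y ≤ K₁ * Real.log k →
      ∀ c : ℤ, |c| ≤ B * (b : ℤ) ^ k → ∀ h : ℕ, 1 ≤ h → h ≤ k ^ J → ∀ N : ℕ, b ^ k ≤ N * k ^ C → N ≤ b ^ k * k ^ C →
        (∀ S : Finset ℕ, S ⊆ Icc 1 N → (∀ q ∈ S, q.Prime) → (N : ℝ) ≤ S.card * (k : ℝ) ^ A →
          (((walks b δ k x z).filter fun v => (N : ℤ) < Nv y h c κ v ∧
            ((Rep S (Nv y h c κ v)).card : ℝ) < (1 - ε) * (S.card / (V y * (k * Real.log b)))).card : ℝ) ≤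
              ε * (walks b δ k x z).card) ∧
        (N : ℝ) / (8 * Real.log N ^ 2) ≤ ((PP N).card : ℝ) ∧
        (((walks b δ k x z).filter fun v => (N : ℤ) < Nv y h c κ v ∧
            ((Rep (PP N) (Nv y h c κ v)).card : ℝ) < (1 - ε) * ((PP N).card / (V y * (k * Real.log b)))).card : ℝ) ≤
              ε * (walks b δ k x z).card := by
  have hG' : Pool.Agent.N625.GW.Graph b δ := ⟨hG.symm, hG.two⟩
  have hb : 2 ≤ b := Pool.Agent.N625.GW.two_le hG' x
  obtain ⟨K₀, h0⟩ := Pool.Agent.U847.XP.dense_sum b _ hb _ (Pool.Agent.U847.XP.w_scls hG' x ρ hρ hR D) κ hκ B J (max A 5) C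
    ε hε hε1
  refine ⟨K₀, fun K₁ => ?_⟩
  obtain ⟨k₀, h0⟩ := h0 K₁
  obtain ⟨k₁, h1⟩ := Pool.Agent.N625.PT.PP_dense b C hb
  refine ⟨max (max k₀ k₁) 1, fun k hk z hz y hy1 hy2 c hc h hh1 hhJ N hN1 hN2 => ?_⟩
  have b0 : 1 ≤ k := by omega
  have hkr : (1 : ℝ) ≤ k := by exact_mod_cast b0
  have main : ∀ S : Finset ℕ, S ⊆ Icc 1 N → (∀ q ∈ S, q.Prime) → (N : ℝ) ≤ S.card * (k : ℝ) ^ (max A 5) →
        (((walks b δ k x z).filter fun v => (N : ℤ) < Nv y h c κ v ∧
            ((Rep S (Nv y h c κ v)).card : ℝ) < (1 - ε) * (S.card / (V y * (k * Real.log b)))).card : ℝ) ≤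
              ε * (walks b δ k x z).card := by
    intro S hS hSp hSA
    have key := Pool.Agent.U847.XW.w_num hρ b0 hz (fun v : ℕ => (N : ℤ) < Nv y h c κ v ∧
      ((Rep S (Nv y h c κ v)).card : ℝ) < (1 - ε) * (S.card / (V y * (k * Real.log b)))) (ε := ε) (fun p hp => by
        refine le_trans (le_of_eq ?_) (h0 k (by omega) p hp y hy1 hy2 c hc h hh1 hhJ N hN1 hN2 S hS hSp hSA)
        apply sum_congr rfl
        intro v _
        congr!)
    have hw : walks b δ k x z = Pool.Agent.N625.GW.walks b δ k x z := rfl
    rw [hw]
    refine le_trans (le_of_eq ?_) key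
    congr!
  obtain ⟨h2, h3⟩ := h1 k (by omega) N hN1 hN2
  refine ⟨fun S hS hSp hSA => main S hS hSp (hSA.trans ?_), h2, main (PP N) (filter_subset _ _)
    (fun q hq => (mem_filter.1 hq).2.1) ?_⟩
  · apply mul_le_mul_of_nonneg_left _ (Nat.cast_nonneg _)
    exact pow_le_pow_right₀ hkr (le_max_left _ _)
  · refine h3.trans ?_
    apply mul_le_mul_of_nonneg_left _ (Nat.cast_nonneg _)
    exact pow_le_pow_right₀ hkr (le_max_right _ _)

end Pool.Agent.Results.MP_5d7b92_nt.WalkMultiples
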